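import Mathlib

set_option autoImplicit false

/-! # Gaps between integers with at most two prime factors: statements of the parts (helper110) -/

namespace Pool.Agent.W110.EG

open Finset

open scoped Classical

/-- few integers have at most one prime factor in `(z, y]` -/
def FewOne : Prop := ∀ (z : ℕ) (ε : ℝ), 0 < ε → ∃ Y : ℕ, ∀ y L : ℕ, Y ≤ y → Y ≤ L →
  (((Icc 1 L).filter (fun k => (k.primeFactors.filter (fun p => z < p ∧ p ≤ y)).card ≤ 1)).card : ℝ)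
    ≤ ε * L

/-- very few integers `≤ A y` have no prime factor in `(z, y]` (the constant does not depend on `z`) -/
def FewNone : Prop := ∀ A : ℝ, 1 ≤ A → ∃ A' : ℝ, 0 < A' ∧ ∀ z : ℕ, ∃ Y : ℕ, ∀ y L : ℕ, Y ≤ y →
  (L : ℝ) ≤ A * y →
  (((Icc 1 L).filter (fun k => ∀ p : ℕ, p.Prime → p ∣ k → z < p → y < p)).card : ℝ)
    ≤ A' * (y / Real.log y)

/-- an injection of a small set into the primes of `(y, 4 y]` -/
def Inject : Prop := ∃ c : ℝ, 0 < c ∧ c ≤ 1 / 4 ∧ ∃ Y : ℕ, ∀ y : ℕ, Y ≤ y → ∀ S : Finset ℕ,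
  (S.card : ℝ) ≤ c * (y / Real.log y) →
  ∃ q : ℕ → ℕ, Set.InjOn q S ∧ ∀ k ∈ S, (q k).Prime ∧ y < q k ∧ q k ≤ 4 * y

/-- long runs of integers with at least three prime factors (with multiplicity) -/
def Runs : Prop := ∀ C : ℝ, 0 < C → ∃ X₀ : ℝ, ∀ X : ℝ, X₀ ≤ X → ∃ n : ℕ, Real.sqrt X ≤ n ∧
  (n : ℝ) ≤ X ∧ ∀ k : ℕ, 1 ≤ k → (k : ℝ) ≤ C * Real.log X → 3 ≤ (n + k).primeFactorsList.length

/-- the frozen statement `S16649` -/
def Frozen : Prop := ∀ M : ℝ, ∀ K : ℕ, ∃ k : ℕ, K ≤ k ∧ 1 ≤ k ∧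
      ((Nat.nth (fun n : ℕ => 0 < n ∧ n.primeFactorsList.length ≤ 2) k : ℕ) : ℝ)
        - ((Nat.nth (fun n : ℕ => 0 < n ∧ n.primeFactorsList.length ≤ 2) (k - 1) : ℕ) : ℝ)
        > M * Real.log (k : ℝ)

end Pool.Agent.W110.EG
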