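import Pool.Agent.W110.EG.Defs

set_option autoImplicit false

/-! # From long runs to the frozen statement -/

namespace Pool.Agent.W110.EG

open Finset

open scoped Classical

theorem frozen_of_runs (h : Runs) : Frozen := by
  intro M K
  set p : ℕ → Prop := fun n : ℕ => 0 < n ∧ n.primeFactorsList.length ≤ 2 with hp
  have hinf : (Set.ofPred p).Infinite := by
    apply Nat.infinite_setOfPred_prime.mono
    intro q hq
    refine ⟨Nat.Prime.pos hq, ?_⟩
    rw [Nat.primeFactorsList_prime hq]
    simp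
  set C := max M 0 + 1 with hC
  have hCM : M ≤ C := by
    have := le_max_left M 0; linarith
  have hC0 : 1 ≤ C := by
    have := le_max_right M 0; linarith
  obtain ⟨X0, hX⟩ := h C (by linarith)
  set X : ℝ := max (max X0 ((Nat.nth p (K + 1) : ℝ) + 2) ^ 2) (max X0 2) with hXdef
  have hX1 : X0 ≤ X := le_trans (le_max_left _ _) (le_max_right _ _)
  have hX2 : 2 ≤ X := le_trans (le_max_right _ _) (le_max_right _ _)
  obtain ⟨n, hn1, hn2, hn3⟩ := hX X hX1
  have hn4 : (Nat.nth p (K + 1) : ℝ) + 2 ≤ n := by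
    refine le_trans ?_ hn1
    apply Real.le_sqrt_of_sq_le
    refine le_trans ?_ (le_max_left _ _)
    apply pow_le_pow_left₀ (by positivity) (le_max_right _ _)
  have hn5 : Nat.nth p (K + 1) + 2 ≤ n := by exact_mod_cast hn4
  set k := Nat.count p (n + 1) with hk
  have hkK : K + 1 < k := by
    by_contra hcon
    have h1 : Nat.count p (n + 1) ≤ K + 1 := not_lt.mp hcon
    have h2 := (Nat.count_le_iff_le_nth hinf).mp h1
    omega
  have hkn : k ≤ n := by
    rw [hk, Nat.count_succ']
    have h0 : ¬ p 0 := fun h0 => lt_irrefl _ h0.1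
    rw [if_neg h0, add_zero]
    exact Nat.count_le _
  have h1 : Nat.nth p (k - 1) < n + 1 := Nat.nth_lt_of_lt_count (by omega)
  have h2 : n + 1 ≤ Nat.nth p k := Nat.le_nth_count hinf (n + 1)
  have h3 : p (Nat.nth p k) := Nat.nth_mem_of_infinite hinf k
  obtain ⟨j, hj⟩ := Nat.exists_eq_add_of_le (show n ≤ Nat.nth p k by omega)
  have hj1 : 1 ≤ j := by omega
  have hjC : C * Real.log X < j := by
    by_contra hcon
    have h4 := hn3 j hj1 (not_lt.mp hcon)
    rw [← hj] at h4
    have h5 := h3.2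
    omega
  have hk1 : (1:ℝ) ≤ k := by exact_mod_cast (by omega : 1 ≤ k)
  have hkX : (k : ℝ) ≤ X := le_trans (by exact_mod_cast hkn) hn2
  have hlogk : 0 ≤ Real.log k := Real.log_nonneg hk1
  have hlog : Real.log k ≤ Real.log X := Real.log_le_log (by linarith) hkX
  refine ⟨k, by omega, by omega, ?_⟩
  have h6 : M * Real.log k ≤ C * Real.log X := by
    calc M * Real.log k ≤ C * Real.log k := mul_le_mul_of_nonneg_right hCM hlogk
      _ ≤ C * Real.log X := mul_le_mul_of_nonneg_left hlog (by linarith)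
  have h7 : ((Nat.nth p (k - 1) : ℕ) : ℝ) ≤ n := by exact_mod_cast (by omega : Nat.nth p (k - 1) ≤ n)
  have h8 : ((Nat.nth p k : ℕ) : ℝ) = n + j := by rw [hj]; push_cast; rfl
  show M * Real.log k < ((Nat.nth p k : ℕ) : ℝ) - ((Nat.nth p (k - 1) : ℕ) : ℝ)
  rw [h8]
  linarith

end Pool.Agent.W110.EG
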