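import Pool.Agent.W110.EG.Defs

set_option autoImplicit false

/-! # Injection of a small set into the primes of `(y, 4 y]` -/

namespace Pool.Agent.W110.EG

open Finset

open scoped Classical

namespace Inj

theorem log_le_root {x : ℝ} (hx : 0 < x) : Real.log x ≤ 4 * √√x := by
  have h1 : 0 < √√x := Real.sqrt_pos.mpr (Real.sqrt_pos.mpr hx)
  have h2 : Real.log x = 4 * Real.log √√x := by
    rw [Real.log_sqrt (Real.sqrt_nonneg _), Real.log_sqrt hx.le]; ring
  rw [h2]
  have := Real.log_le_sub_one_of_pos h1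
  linarith

theorem growth {y : ℝ} (hy : (100:ℝ) ^ 4 ≤ y) :
    Real.log (4 * y + 1) + 2 * √(4 * y) * Real.log (4 * y) ≤ 38 / 100 * y := by
  have hy0 : 0 < y := lt_of_lt_of_le (by norm_num) hy
  set w := √√y with hw
  have hw2 : √y = w ^ 2 := (Real.sq_sqrt (Real.sqrt_nonneg _)).symm
  have hw4 : y = w ^ 4 := by
    rw [show w ^ 4 = (w ^ 2) ^ 2 by ring, ← hw2, Real.sq_sqrt hy0.le]
  have hw0 : 0 ≤ w := Real.sqrt_nonneg _
  have hwl : 100 ≤ w := by
    have h1 : (100:ℝ) ^ 4 ≤ w ^ 4 := by rw [← hw4]; exact hy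
    exact le_of_pow_le_pow_left₀ (by norm_num) hw0 h1
  have h16 : ∀ x : ℝ, 0 < x → x ≤ 16 * y → Real.log x ≤ 8 * w := by
    intro x hx hxy
    refine (log_le_root hx).trans ?_
    have : √√x ≤ 2 * w := by
      have h3 : √√x ≤ √√(16 * y) := Real.sqrt_le_sqrt (Real.sqrt_le_sqrt hxy)
      refine h3.trans (le_of_eq ?_)
      rw [show (16:ℝ) * y = 4 ^ 2 * y by ring, Real.sqrt_mul (by norm_num),
        Real.sqrt_sq (by norm_num), show (4:ℝ) * √y = 2 ^ 2 * √y by ring,
        Real.sqrt_mul (by norm_num), Real.sqrt_sq (by norm_num)]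
    linarith
  have h4 : √(4 * y) = 2 * w ^ 2 := by
    rw [show (4:ℝ) * y = 2 ^ 2 * y by ring, Real.sqrt_mul (by norm_num),
      Real.sqrt_sq (by norm_num), hw2]
  have h5 := h16 (4 * y + 1) (by linarith) (by linarith)
  have h6 := h16 (4 * y) (by linarith) (by linarith)
  rw [h4]
  have h7 : 2 * (2 * w ^ 2) * Real.log (4 * y) ≤ 2 * (2 * w ^ 2) * (8 * w) :=
    mul_le_mul_of_nonneg_left h6 (by positivity)
  have h8 : 8 * w + 2 * (2 * w ^ 2) * (8 * w) ≤ 38 / 100 * w ^ 4 := by
    have h9 : 100 * w ^ 3 ≤ w ^ 4 := by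
      calc 100 * w ^ 3 ≤ w * w ^ 3 := mul_le_mul_of_nonneg_right hwl (by positivity)
        _ = w ^ 4 := by ring
    have h10 : w ≤ w ^ 3 / 100 := by
      have : 100 * 1 ≤ w * w := mul_le_mul hwl (by linarith) (by norm_num) hw0
      nlinarith
    nlinarith
  rw [hw4] at h5 h7 ⊢
  linarith

end Inj

theorem inject : Inject := by
  refine ⟨1 / 4, by norm_num, le_refl _, 100 ^ 4, fun y hy S hS => ?_⟩
  have hyr : (100:ℝ) ^ 4 ≤ y := by exact_mod_cast hy
  have hy0 : (0:ℝ) < y := lt_of_lt_of_le (by norm_num) hyr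
  set T := (Icc (y + 1) (4 * y)).filter Nat.Prime with hT
  have hlog4 : Real.log 4 = 2 * Real.log 2 := by
    rw [show (4:ℝ) = 2 ^ 2 by norm_num, Real.log_pow]; push_cast; ring
  have hl2 : (0.69 : ℝ) < Real.log 2 := by
    have := Real.log_two_gt_d9; linarith
  have hth1 := Chebyshev.theta_ge (4 * y)
  have hth2 := Chebyshev.theta_le_log4_mul_x (x := (y : ℝ)) hy0.le
  have hgr := Inj.growth hyr
  have hdiff : Chebyshev.theta ((4 * y : ℕ) : ℝ) = Chebyshev.theta (y : ℝ) + ∑ p ∈ T, Real.log p := by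
    rw [Chebyshev.theta_eq_sum_Icc, Chebyshev.theta_eq_sum_Icc, Nat.floor_natCast, Nat.floor_natCast]
    have hun : (Icc 0 (4 * y)).filter Nat.Prime = (Icc 0 y).filter Nat.Prime ∪ T := by
      ext p
      simp only [hT, mem_filter, mem_union, mem_Icc]
      by_cases hpp : p.Prime
      · simp only [hpp, and_true]; omega
      · simp only [hpp, and_false, or_false]
    have hdis : Disjoint ((Icc 0 y).filter Nat.Prime) T := by
      rw [Finset.disjoint_left]
      intro p hp hp'
      simp only [hT, mem_filter, mem_Icc] at hp hp'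
      omega
    rw [hun, sum_union hdis]
  have hsum : ∑ p ∈ T, Real.log p ≤ (T.card : ℝ) * Real.log (4 * y) := by
    rw [← nsmul_eq_mul]
    apply Finset.sum_le_card_nsmul
    intro p hp
    simp only [hT, mem_filter, mem_Icc] at hp
    apply Real.log_le_log
    · exact_mod_cast (by omega : 0 < p)
    · exact_mod_cast hp.1.2
  have hT1 : (y : ℝ) ≤ (T.card : ℝ) * Real.log (4 * y) := by
    push_cast at hth1 hdiff
    nlinarith
  have hlogy : 0 < Real.log y := Real.log_pos (by linarith)
  have hlog4y : Real.log (4 * y) ≤ 2 * Real.log y := by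
    rw [show (2:ℝ) * Real.log y = Real.log (y ^ 2) by rw [Real.log_pow]; push_cast; ring]
    apply Real.log_le_log (by linarith)
    nlinarith
  have hcard : S.card ≤ T.card := by
    have h1 : (y : ℝ) ≤ (T.card : ℝ) * (2 * Real.log y) :=
      hT1.trans (mul_le_mul_of_nonneg_left hlog4y (by positivity))
    have h2 : (y : ℝ) / Real.log y ≤ 2 * T.card := by
      rw [div_le_iff₀ hlogy]; linarith
    have h3 : (S.card : ℝ) ≤ T.card := by
      have : (0:ℝ) ≤ T.card := by positivity
      linarith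
    exact_mod_cast h3
  obtain ⟨f⟩ : Nonempty (S ↪ T) := by
    apply Function.Embedding.nonempty_of_card_le
    simpa using hcard
  refine ⟨fun k => if h : k ∈ S then (f ⟨k, h⟩ : ℕ) else 0, ?_, ?_⟩
  · intro a ha b hb hab
    have ha' : a ∈ S := ha
    have hb' : b ∈ S := hb
    simp only [ha', hb', dif_pos] at hab
    have := f.injective (Subtype.ext hab)
    exact congrArg Subtype.val this
  · intro k hk
    simp only [hk, dif_pos]
    have := (f ⟨k, hk⟩).2
    simp only [hT, mem_filter, mem_Icc] at this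
    exact ⟨this.2, by omega, by omega⟩

end Pool.Agent.W110.EG
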