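import Pool.Agent.W110.EG.Defs

set_option autoImplicit false

namespace Pool.Agent.W110.EG

open Finset

open scoped Classical

lemma sqrt_small (c : ℝ) (hc : 0 < c) : ∃ Y : ℕ, 2 ≤ Y ∧ ∀ y : ℕ, Y ≤ y →
    c * √(y : ℝ) ≤ y / Real.log y := by
  have h := (isLittleO_log_rpow_atTop (r := 1 / 2) (by norm_num)).def (c := 1 / c) (by positivity)
  obtain ⟨X, hX⟩ := Filter.eventually_atTop.1 h
  refine ⟨max ⌈X⌉₊ 2, le_max_right _ _, fun y hy => ?_⟩
  have hyX : X ≤ y := (Nat.le_ceil X).trans (by exact_mod_cast (le_max_left _ _).trans hy)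
  have hy2 : (2 : ℝ) ≤ y := by exact_mod_cast (le_max_right _ _).trans hy
  have h1 := hX y hyX
  have hlog : 0 < Real.log y := Real.log_pos (by linarith)
  have hs : 0 < √(y : ℝ) := Real.sqrt_pos.2 (by linarith)
  rw [Real.norm_of_nonneg hlog.le, ← Real.sqrt_eq_rpow, Real.norm_of_nonneg hs.le] at h1
  rw [le_div_iff₀ hlog]
  have h2 : c * Real.log y ≤ √(y : ℝ) := by
    calc c * Real.log y ≤ c * (1 / c * √(y : ℝ)) := mul_le_mul_of_nonneg_left h1 hc.le
      _ = √(y : ℝ) := by field_simp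
  calc c * √(y : ℝ) * Real.log y = (c * Real.log y) * √(y : ℝ) := by ring
    _ ≤ √(y : ℝ) * √(y : ℝ) := mul_le_mul_of_nonneg_right h2 hs.le
    _ = y := Real.mul_self_sqrt (by linarith)

theorem fewNone : FewNone := by
  intro A hA
  refine ⟨(A + 1) * (3 * A + 1) + 1, by positivity, fun z => ?_⟩
  obtain ⟨Y1, hY1, h1⟩ := sqrt_small (2 ^ (Nat.primesBelow (z + 1)).card * √A)
    (by have : 0 < √A := Real.sqrt_pos.2 (by linarith)
        positivity)
  obtain ⟨Y2, hY2, h2⟩ := sqrt_small (√A) (Real.sqrt_pos.2 (by linarith))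
  refine ⟨max Y1 Y2, fun y L hy hL => ?_⟩
  have hy2 : (2 : ℝ) ≤ y := by exact_mod_cast (hY1.trans ((le_max_left _ _).trans hy))
  have hy0 : (0 : ℝ) < y := by linarith
  have hlog : 0 < Real.log y := Real.log_pos (by linarith)
  -- the two cases
  set S1 := Nat.smoothNumbersUpTo L (z + 1) with hS1
  set S2 := ((range (⌊A⌋₊ + 1)) ×ˢ (Nat.primesLE L)).image (fun x => x.1 * x.2) with hS2
  have hsub : (Icc 1 L).filter (fun k => ∀ p : ℕ, p.Prime → p ∣ k → z < p → y < p) ⊆ S1 ∪ S2 := by
    intro k hk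
    rw [mem_filter, mem_Icc] at hk
    obtain ⟨⟨hk1, hk2⟩, hk3⟩ := hk
    rw [mem_union]
    by_cases hq : ∃ q : ℕ, q.Prime ∧ q ∣ k ∧ z < q
    · right
      obtain ⟨q, hq1, ⟨m, hm⟩, hq3⟩ := hq
      have hyq := hk3 q hq1 ⟨m, hm⟩ hq3
      rw [hS2, mem_image]
      refine ⟨(m, q), ?_, by rw [hm]; ring⟩
      rw [mem_product, mem_range, Nat.mem_primesLE]
      have hm0 : 0 < m := by
        rcases Nat.eq_zero_or_pos m with h | h
        · rw [h] at hm; omega
        · exact h
      have hqL : q ≤ L := by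
        calc q ≤ q * m := Nat.le_mul_of_pos_right q hm0
          _ = k := hm.symm
          _ ≤ L := hk2
      have hmA : m ≤ ⌊A⌋₊ := by
        apply Nat.le_floor
        have h3 : (m : ℝ) * y ≤ A * y := by
          have h4 : (k : ℝ) ≤ L := by exact_mod_cast hk2
          have h5 : (k : ℝ) = q * m := by exact_mod_cast hm
          have h6 : (y : ℝ) ≤ q := by exact_mod_cast hyq.le
          have h7 : (0 : ℝ) ≤ m := Nat.cast_nonneg m
          calc (m : ℝ) * y ≤ m * q := mul_le_mul_of_nonneg_left h6 h7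
            _ = k := by rw [h5]; ring
            _ ≤ A * y := h4.trans hL
        exact le_of_mul_le_mul_right h3 hy0
      exact ⟨by simp only; omega, hqL, hq1⟩
    · left
      push Not at hq
      rw [hS1, Nat.mem_smoothNumbersUpTo, Nat.mem_smoothNumbers']
      refine ⟨hk2, fun p hp hpk => ?_⟩
      have := hq p hp hpk
      omega
  have c1 : (S1.card : ℝ) ≤ y / Real.log y := by
    have h3 := Nat.smoothNumbersUpTo_card_le L (z + 1)
    have h4 : ((2 ^ (Nat.primesBelow (z + 1)).card * L.sqrt : ℕ) : ℝ) ≤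
        2 ^ (Nat.primesBelow (z + 1)).card * √A * √(y : ℝ) := by
      push_cast
      rw [mul_assoc]
      gcongr
      calc (L.sqrt : ℝ) ≤ √(L : ℝ) := Real.nat_sqrt_le_real_sqrt
        _ ≤ √(A * y) := Real.sqrt_le_sqrt hL
        _ = √A * √(y : ℝ) := Real.sqrt_mul (by linarith) _
    calc (S1.card : ℝ) ≤ ((2 ^ (Nat.primesBelow (z + 1)).card * L.sqrt : ℕ) : ℝ) := by
          exact_mod_cast h3
      _ ≤ _ := h4
      _ ≤ _ := h1 y ((le_max_left _ _).trans hy)
  have c2 : (S2.card : ℝ) ≤ (A + 1) * ((3 * A + 1) * (y / Real.log y)) := by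
    have h3 : S2.card ≤ (⌊A⌋₊ + 1) * (Nat.primesLE L).card := by
      rw [hS2]
      refine card_image_le.trans ?_
      rw [card_product, card_range]
    have h4 : ((Nat.primesLE L).card : ℝ) ≤ (3 * A + 1) * (y / Real.log y) := by
      have hAy : (1 : ℝ) < A * y := by nlinarith
      have h5 := Chebyshev.pi_le_log4_mul_div hAy
      have h6 : (Nat.primesLE L).card ≤ Nat.primeCounting ⌊A * (y : ℝ)⌋₊ := by
        rw [← Nat.primesLE_card_eq_primeCounting]
        exact card_le_card (Nat.primesLE_mono (Nat.le_floor hL))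
      have h7 : ((Nat.primesLE L).card : ℝ) ≤ (Nat.primeCounting ⌊A * (y : ℝ)⌋₊ : ℝ) := by
        exact_mod_cast h6
      have h8 : √(A * (y : ℝ)) ≤ y / Real.log y := by
        rw [Real.sqrt_mul (by linarith)]
        exact h2 y ((le_max_right _ _).trans hy)
      have h9 : Real.log 4 * (A * y) / Real.log √(A * (y : ℝ)) ≤ 3 * A * (y / Real.log y) := by
        rw [Real.log_sqrt (by linarith)]
        have hl : Real.log y ≤ Real.log (A * y) := Real.log_le_log hy0 (by nlinarith)
        have hl4 : Real.log 4 ≤ 3 / 2 := by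
          have : Real.log 4 = 2 * Real.log 2 := by
            rw [show (4 : ℝ) = 2 ^ 2 by norm_num, Real.log_pow]; norm_num
          rw [this]
          have := Real.log_two_lt_d9
          linarith
        calc Real.log 4 * (A * y) / (Real.log (A * y) / 2) ≤
              3 / 2 * (A * y) / (Real.log y / 2) := by gcongr
          _ = 3 * A * (y / Real.log y) := by field_simp
      calc _ ≤ _ := h7
        _ ≤ _ := h5
        _ ≤ 3 * A * (y / Real.log y) + y / Real.log y := add_le_add h9 h8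
        _ = _ := by ring
    calc (S2.card : ℝ) ≤ (((⌊A⌋₊ + 1) * (Nat.primesLE L).card : ℕ) : ℝ) := by exact_mod_cast h3
      _ = ((⌊A⌋₊ : ℝ) + 1) * ((Nat.primesLE L).card : ℝ) := by push_cast; ring
      _ ≤ (A + 1) * ((3 * A + 1) * (y / Real.log y)) := by
        gcongr
        exact Nat.floor_le (by linarith)
  have hcard := (card_le_card hsub).trans (card_union_le _ _)
  have hcard' : (((Icc 1 L).filter (fun k => ∀ p : ℕ, p.Prime → p ∣ k → z < p → y < p)).card : ℝ) ≤
      (S1.card : ℝ) + S2.card := by exact_mod_cast hcard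
  calc _ ≤ (S1.card : ℝ) + S2.card := hcard'
    _ ≤ y / Real.log y + (A + 1) * ((3 * A + 1) * (y / Real.log y)) := add_le_add c1 c2
    _ = _ := by ring

end Pool.Agent.W110.EG
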