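import Pool.Agent.W110.EG.Defs

set_option autoImplicit false

namespace Pool.Agent.W110.EG

open Finset

open scoped Classical

/-- finite sets of large primes with small product `∏ (1 - 1/p)` -/
lemma exists_primes (N : ℕ) (δ : ℝ) (hδ : 0 < δ) : ∃ T : Finset ℕ, (∀ p ∈ T, p.Prime ∧ N < p) ∧
    ∏ p ∈ T, (1 - 1 / (p : ℝ)) ≤ δ := by
  have hdiv := not_summable_one_div_on_primes
  rw [not_summable_iff_tendsto_nat_atTop_of_nonneg] at hdiv
  swap
  · intro n
    apply Set.indicator_nonneg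
    intro x _
    positivity
  set f : ℕ → ℝ := Set.indicator {p | p.Prime} (fun n : ℕ => (1 : ℝ) / n) with hf
  obtain ⟨n, hn1, hn2⟩ := ((hdiv.eventually_ge_atTop (∑ i ∈ range (N + 1), f i - Real.log δ)).and
    (Filter.eventually_ge_atTop (N + 1))).exists
  set T := (Ico (N + 1) n).filter Nat.Prime with hT
  have hsum : ∑ p ∈ T, 1 / (p : ℝ) = ∑ i ∈ Ico (N + 1) n, f i := by
    rw [hT, sum_filter]
    refine sum_congr rfl fun i _ => ?_
    rw [hf, Set.indicator_apply]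
    rfl
  have h1 : -Real.log δ ≤ ∑ p ∈ T, 1 / (p : ℝ) := by
    rw [hsum, sum_Ico_eq_sub _ hn2]
    linarith
  refine ⟨T, ?_, ?_⟩
  · intro p hp
    rw [hT, mem_filter, mem_Ico] at hp
    exact ⟨hp.2, by omega⟩
  · calc ∏ p ∈ T, (1 - 1 / (p : ℝ)) ≤ ∏ p ∈ T, Real.exp (-(1 / (p : ℝ))) := by
          refine prod_le_prod (fun p hp => ?_) (fun p hp => ?_)
          · rw [hT, mem_filter] at hp
            have h2 : (1 : ℝ) ≤ p := by exact_mod_cast hp.2.one_lt.le
            rw [sub_nonneg, div_le_one (by linarith)]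
            exact h2
          · have := Real.add_one_le_exp (-(1 / (p : ℝ)))
            linarith
      _ = Real.exp (-∑ p ∈ T, 1 / (p : ℝ)) := by rw [← Real.exp_sum, sum_neg_distrib]
      _ ≤ Real.exp (Real.log δ) := Real.exp_le_exp.2 (by linarith)
      _ = δ := Real.exp_log hδ

lemma count_coprime (T : Finset ℕ) (hT : ∀ p ∈ T, p.Prime) (L : ℕ) :
    (((Icc 1 L).filter (fun k => ∀ p ∈ T, ¬ p ∣ k)).card : ℝ) ≤
      (∏ p ∈ T, (1 - 1 / (p : ℝ))) * L + ((∏ p ∈ T, p : ℕ) : ℝ) := by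
  set M := ∏ p ∈ T, p with hM
  have hM0 : M ≠ 0 := prod_ne_zero_iff.2 fun p hp => (hT p hp).ne_zero
  have hpf : M.primeFactors = T := Nat.primeFactors_prod hT
  have h1 := Nat.Ico_filter_coprime_le (a := M) 1 L hM0
  have hsub : (Icc 1 L).filter (fun k => ∀ p ∈ T, ¬ p ∣ k) ⊆
      (Ico 1 (1 + L)).filter (fun x => M.Coprime x) := by
    intro k hk
    rw [mem_filter, mem_Icc] at hk
    rw [mem_filter, mem_Ico]
    refine ⟨⟨hk.1.1, by omega⟩, ?_⟩
    rw [hM]
    apply Nat.Coprime.prod_left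
    intro p hp
    exact ((hT p hp).coprime_iff_not_dvd).2 (hk.2 p hp)
  have h2 := (card_le_card hsub).trans h1
  have h3 : (M.totient : ℝ) = M * ∏ p ∈ T, (1 - 1 / (p : ℝ)) := by
    have := Nat.totient_eq_mul_prod_factors M
    rw [hpf] at this
    have h4 : ((M.totient : ℚ) : ℝ) = ((M * ∏ p ∈ T, (1 - (p : ℚ)⁻¹) : ℚ) : ℝ) := by rw [this]
    push_cast at h4
    rw [h4]
    simp only [one_div]
  have hMpos : (0 : ℝ) < M := by exact_mod_cast Nat.pos_of_ne_zero hM0
  calc (((Icc 1 L).filter (fun k => ∀ p ∈ T, ¬ p ∣ k)).card : ℝ) ≤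
        ((M.totient * (L / M + 1) : ℕ) : ℝ) := by exact_mod_cast h2
    _ = (M.totient : ℝ) * (((L / M : ℕ) : ℝ) + 1) := by push_cast; ring
    _ ≤ (M.totient : ℝ) * ((L : ℝ) / M + 1) := by
        gcongr
        exact Nat.cast_div_le
    _ = (∏ p ∈ T, (1 - 1 / (p : ℝ))) * L + M.totient := by
        rw [mul_add, mul_one]
        congr 1
        rw [h3]
        field_simp
    _ ≤ _ := by
        gcongr
        exact_mod_cast Nat.totient_le M

theorem fewOne : FewOne := by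
  intro z ε hε
  obtain ⟨T1, h1, h1'⟩ := exists_primes z (ε / 4) (by linarith)
  set N := max z (T1.sup id) with hN
  obtain ⟨T2, h2, h2'⟩ := exists_primes N (ε / 4) (by linarith)
  set M1 := ∏ p ∈ T1, p with hM1
  set M2 := ∏ p ∈ T2, p with hM2
  set Y := max (max N (T2.sup id)) ⌈(M1 + M2 : ℝ) / (ε / 2)⌉₊ with hY
  refine ⟨Y, fun y L hy hL => ?_⟩
  have hT1 : ∀ p ∈ T1, p ≤ N := fun p hp =>
    (Finset.le_sup (f := id) hp).trans (le_max_right _ _)
  have hNy : N ≤ y := ((le_max_left _ _).trans (le_max_left _ _)).trans hy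
  have hT2 : ∀ p ∈ T2, p ≤ y := fun p hp =>
    ((Finset.le_sup (f := id) hp).trans ((le_max_right _ _).trans (le_max_left _ _))).trans hy
  have hsub : (Icc 1 L).filter (fun k => (k.primeFactors.filter (fun p => z < p ∧ p ≤ y)).card ≤ 1) ⊆
      (Icc 1 L).filter (fun k => ∀ p ∈ T1, ¬ p ∣ k) ∪ (Icc 1 L).filter (fun k => ∀ p ∈ T2, ¬ p ∣ k) := by
    intro k hk
    rw [mem_filter, mem_Icc] at hk
    obtain ⟨⟨hk1, hk2⟩, hk3⟩ := hk
    rw [mem_union, mem_filter, mem_filter, mem_Icc]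
    by_contra hcon
    push Not at hcon
    obtain ⟨c1, c2⟩ := hcon
    obtain ⟨p, hp, hpk⟩ := c1 ⟨hk1, hk2⟩
    obtain ⟨q, hq, hqk⟩ := c2 ⟨hk1, hk2⟩
    have hpq : p ≠ q := by
      have := hT1 p hp
      have := (h2 q hq).2
      omega
    have hkz : k ≠ 0 := by omega
    have hss : ({p, q} : Finset ℕ) ⊆ k.primeFactors.filter (fun p => z < p ∧ p ≤ y) := by
      intro x hx
      rw [mem_insert, mem_singleton] at hx
      rw [mem_filter, Nat.mem_primeFactors]
      rcases hx with hx | hx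
      · subst hx
        exact ⟨⟨(h1 x hp).1, hpk, hkz⟩, (h1 x hp).2, (hT1 x hp).trans hNy⟩
      · subst hx
        exact ⟨⟨(h2 x hq).1, hqk, hkz⟩, lt_of_le_of_lt (le_max_left _ _) (h2 x hq).2, hT2 x hq⟩
    have := card_le_card hss
    rw [card_pair hpq] at this
    omega
  have c1 := count_coprime T1 (fun p hp => (h1 p hp).1) L
  have c2 := count_coprime T2 (fun p hp => (h2 p hp).1) L
  have hL0 : (0 : ℝ) ≤ L := Nat.cast_nonneg L
  have hcard := (card_le_card hsub).trans (card_union_le _ _)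
  have hcard' : (((Icc 1 L).filter (fun k => (k.primeFactors.filter
      (fun p => z < p ∧ p ≤ y)).card ≤ 1)).card : ℝ) ≤
      (((Icc 1 L).filter (fun k => ∀ p ∈ T1, ¬ p ∣ k)).card : ℝ) +
      (((Icc 1 L).filter (fun k => ∀ p ∈ T2, ¬ p ∣ k)).card : ℝ) := by exact_mod_cast hcard
  have hML : (M1 + M2 : ℝ) ≤ ε / 2 * L := by
    have h5 : ⌈(M1 + M2 : ℝ) / (ε / 2)⌉₊ ≤ L := (le_max_right _ _).trans hL
    have h6 := Nat.ceil_le.1 h5
    rw [div_le_iff₀ (by linarith)] at h6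
    linarith
  have g1 := mul_le_mul_of_nonneg_right h1' hL0
  have g2 := mul_le_mul_of_nonneg_right h2' hL0
  linarith

end Pool.Agent.W110.EG
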